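import Mathlib
import Pool.Agent.Y495.CP.Sel

/-!
# Sequential spaces of continuous functions with zero-dimensional targets

Let `X` be any topological space. If for one `T₁` space `Z` with at least two points the space
`C_p(X, Z)` of continuous maps with the topology of pointwise convergence is sequential (for
instance `Z = {0, 1}`), then for all ultrametric spaces `Z` (for instance all discrete spaces, the
rationals, the `p`-adic numbers, the Cantor set) the space `C_p(X, Z)` is Fréchet-Urysohn. This is
the case if and only if `X` has a covering property for families of clopen sets.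
-/

set_option autoImplicit false

namespace Pool.Agent.Results.MP_110f0a_gt.AllTargets

open Filter Topology Set

universe u v

/-- `C_p(X, Z)`: the set of the continuous maps `X → Z` with the topology of pointwise convergence,
i.e. the subspace topology inherited from the product `X → Z`. -/
abbrev Cp (X : Type u) (Z : Type v) [TopologicalSpace X] [TopologicalSpace Z] : Type (max u v) :=
  {f : X → Z // Continuous f}

/-- Every family `𝒰` of clopen subsets of `X` such that every finite subset of `X` is contained in
a member of `𝒰` contains a sequence such that every point lies in all but finitely many of its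
terms. -/
def ClopenGamma (X : Type u) [TopologicalSpace X] : Prop :=
  ∀ 𝒰 : Set (Set X), (∀ U ∈ 𝒰, IsClopen U) → (∀ F : Finset X, ∃ U ∈ 𝒰, ∀ x ∈ F, x ∈ U) →
    ∃ U : ℕ → Set X, (∀ n, U n ∈ 𝒰) ∧ ∀ x, ∀ᶠ n in atTop, x ∈ U n

/-- The selection form of the property `ClopenGamma`: from every sequence `𝒰 0, 𝒰 1, …` of
families of clopen subsets of `X` such that every finite subset of `X` is contained in a member of
every `𝒰 n` one can choose `U n ∈ 𝒰 n` such that every point lies in all but finitely many `U n`. -/
def ClopenSelect (X : Type u) [TopologicalSpace X] : Prop :=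
  ∀ 𝒰 : ℕ → Set (Set X), (∀ n, ∀ U ∈ 𝒰 n, IsClopen U) →
    (∀ n, ∀ F : Finset X, ∃ U ∈ 𝒰 n, ∀ x ∈ F, x ∈ U) →
    ∃ U : ℕ → Set X, (∀ n, U n ∈ 𝒰 n) ∧ ∀ x, ∀ᶠ n in atTop, x ∈ U n

/-- **Main theorem.** For every topological space `X` the following are equivalent:
1. `C_p(X, {0,1})` is sequential;
2. `C_p(X, {0,1})` is Fréchet-Urysohn;
3. `X` has the property `ClopenGamma`;
4. `X` has the property `ClopenSelect`;
5. `C_p(X, Z)` is Fréchet-Urysohn for every ultrametric space `Z` (every metric space with
   `d(x, z) ≤ max (d(x, y), d(y, z))`);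
6. `C_p(X, Z)` is sequential for some `T₁` space `Z` with at least two points;
7. the product of countably many copies of `C_p(X, {0,1})` is Fréchet-Urysohn. -/
theorem result (X : Type u) [TopologicalSpace X] :
    List.TFAE [
      SequentialSpace (Cp X Bool),
      FrechetUrysohnSpace (Cp X Bool),
      ClopenGamma X,
      ClopenSelect X,
      ∀ (Z : Type v) [MetricSpace Z] [IsUltrametricDist Z], FrechetUrysohnSpace (Cp X Z),
      ∃ (Z : Type v) (_ : TopologicalSpace Z), T1Space Z ∧ Nontrivial Z ∧
        SequentialSpace (Cp X Z),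
      FrechetUrysohnSpace (ℕ → Cp X Bool)] := by
  tfae_have 1 → 2 := fun h => SequentialFrechet.result X h
  tfae_have 2 → 3 := fun h => Pool.Agent.Y495.CP.gamma_of_fu h
  tfae_have 3 → 4 := fun h => Pool.Agent.Y495.CP.select_of_gamma h
  tfae_have 4 → 5 := fun h Z _ _ => Pool.Agent.Y495.CP.fu_ultra h Z
  tfae_have 5 → 6 := fun h => Pool.Agent.Y495.CP.exists_target X h
  tfae_have 6 → 1 := fun ⟨Z, _, _, _, hs⟩ => Pool.Agent.Y495.CP.seq_two X Z hs
  tfae_have 4 → 7 := fun h => Pool.Agent.Y495.CP.fu_power h
  tfae_have 7 → 1 := fun h => Pool.Agent.Y495.CP.seq_power X h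
  tfae_finish

end Pool.Agent.Results.MP_110f0a_gt.AllTargets
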